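import Pool.Agent.W500.FL.Stm

set_option autoImplicit false

namespace Pool.Agent.W188.FL.Irr

open Polynomial Pool.Agent.W500.FL Finset

section
variable {K L : Type} [Field K] [Fintype K] [DecidableEq K] [Field L] [Algebra K L]
  [FiniteDimensional K L]

/-- the norm of a polynomial expression in a primitive element is a resultant -/
theorem norm_eq_resultant [IsGalois K L] (P g : K[X]) (pb : PowerBasis K L)
    (hmin : minpoly K pb.gen = P) (hP : P.Monic) :
    Algebra.norm K (aeval pb.gen g) = resultant P g := by
  classical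
  apply (algebraMap K L).injective
  rw [Algebra.norm_eq_prod_automorphisms, ← resultant_map_map]
  have hinj : Function.Injective (fun σ : Gal(L/K) => σ pb.gen) := by
    intro σ τ h
    have h1 : (σ : L →ₐ[K] L) = (τ : L →ₐ[K] L) := pb.algHom_ext h
    ext x
    exact DFunLike.congr_fun h1 x
  have hroots : (P.map (algebraMap K L)).roots
      = (univ : Finset Gal(L/K)).val.map (fun σ => σ pb.gen) := by
    symm
    apply Multiset.eq_of_le_of_card_le
    · rw [Multiset.le_iff_subset (Multiset.Nodup.map hinj univ.nodup)]
      intro x hx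
      rw [Multiset.mem_map] at hx
      obtain ⟨σ, -, rfl⟩ := hx
      rw [mem_roots (hP.map _).ne_zero, IsRoot.def, eval_map_algebraMap]
      have h2 : aeval (σ pb.gen) P = σ (aeval pb.gen P) := by
        exact aeval_algHom_apply (σ : L →ₐ[K] L) pb.gen P
      rw [h2, ← hmin, minpoly.aeval, map_zero]
    · refine (card_roots' _).trans ?_
      rw [natDegree_map, Multiset.card_map, Finset.card_val, Finset.card_univ,
        ← Nat.card_eq_fintype_card, IsGalois.card_aut_eq_finrank, ← hmin, pb.natDegree_minpoly,
        pb.finrank]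
  have hcard : (P.map (algebraMap K L)).roots.card = (P.map (algebraMap K L)).natDegree := by
    rw [hroots, natDegree_map, Multiset.card_map, Finset.card_val, Finset.card_univ,
        ← Nat.card_eq_fintype_card, IsGalois.card_aut_eq_finrank, ← hmin, pb.natDegree_minpoly,
        pb.finrank]
  have hsplit : (P.map (algebraMap K L)).Splits := by
    rw [splits_iff_card_roots]
    exact hcard
  have h3 := resultant_eq_prod_eval (P.map (algebraMap K L)) (g.map (algebraMap K L)) g.natDegree
    natDegree_map_le hsplit
  rw [natDegree_map] at h3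
  rw [h3, (hP.map _).leadingCoeff, one_pow, one_mul, hroots, Multiset.map_map]
  rw [Finset.prod]
  congr 1
  apply Multiset.map_congr rfl
  intro σ _
  rw [Function.comp_apply, eval_map_algebraMap]; exact (aeval_algHom_apply (σ : L →ₐ[K] L) pb.gen g).symm

/-- the Vandermonde determinant of the conjugates -/
noncomputable def dlt (K : Type) {L : Type} [Field K] [Fintype K] [Field L] [Algebra K L] (n : ℕ)
    (θ : L) : L :=
  Matrix.det (Matrix.vandermonde (fun i : Fin n => θ ^ (Fintype.card K ^ (i : ℕ))))

omit [DecidableEq K] [FiniteDimensional K L] in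
theorem frob_dlt (n : ℕ) (θ : L) (hθ : θ ^ (Fintype.card K ^ n) = θ) :
    (dlt K n θ) ^ Fintype.card K = (-1) ^ (n - 1) * dlt K n θ := by
  classical
  rcases n with _ | n
  · simp [dlt]
  have h1 : (dlt K (n + 1) θ) ^ Fintype.card K
      = FiniteField.frobeniusAlgHom K L (dlt K (n + 1) θ) := by
    rw [FiniteField.coe_frobeniusAlgHom]
  rw [h1, dlt, AlgHom.map_det]
  have h2 : (FiniteField.frobeniusAlgHom K L).mapMatrix
      (Matrix.vandermonde (fun i : Fin (n + 1) => θ ^ (Fintype.card K ^ (i : ℕ))))
      = (Matrix.vandermonde (fun i : Fin (n + 1) => θ ^ (Fintype.card K ^ (i : ℕ)))).submatrix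
        (finRotate (n + 1)) id := by
    ext i j
    rw [AlgHom.mapMatrix_apply, Matrix.map_apply, Matrix.submatrix_apply,
      Matrix.vandermonde_apply, Matrix.vandermonde_apply, FiniteField.coe_frobeniusAlgHom]
    simp only [id]
    rw [pow_right_comm]
    congr 1
    rw [coe_finRotate, ← pow_mul, ← pow_succ]
    split_ifs with h
    · rw [h, Fin.val_last, pow_zero, pow_one, hθ]
    · rfl
  rw [h2, Matrix.det_permute, sign_finRotate]
  push_cast
  simp

omit [DecidableEq K] in
theorem discr_eq (pb : PowerBasis K L) :
    algebraMap K L (Algebra.discr K pb.basis) = (dlt K pb.dim pb.gen) ^ 2 := by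
  classical
  have hfin : Finite L := Module.finite_of_finite K
  let E := AlgebraicClosure L
  let e1 : Fin (Module.finrank K L) ≃ Gal(L/K) :=
    Equiv.ofBijective _ (FiniteField.bijective_frobeniusAlgEquivOfAlgebraic_pow K L)
  let e : Fin pb.dim ≃ (L →ₐ[K] E) :=
    ((finCongr pb.finrank.symm).trans e1).trans (Normal.algHomEquivAut K E L).symm
  have he : ∀ i : Fin pb.dim, e i pb.gen
      = algebraMap L E (pb.gen ^ (Fintype.card K ^ (i : ℕ))) := by
    intro i
    have h0 : e i pb.gen = algebraMap L E ((FiniteField.frobeniusAlgEquivOfAlgebraic K L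
      ^ (i : ℕ)) pb.gen) := rfl
    rw [h0]
    congr 1
    rw [AlgEquiv.coe_pow, FiniteField.coe_frobeniusAlgEquivOfAlgebraic_iterate]
  apply (algebraMap L E).injective
  rw [← IsScalarTower.algebraMap_apply, Algebra.discr_powerBasis_eq_prod K E pb e, map_pow, dlt,
    Matrix.det_vandermonde, map_prod, ← Finset.prod_pow]
  apply Finset.prod_congr rfl
  intro i _
  rw [map_prod, ← Finset.prod_pow]
  apply Finset.prod_congr rfl
  intro j _
  rw [he, he, map_sub]

omit [DecidableEq K] in
/-- elements fixed by the Frobenius are in the small field -/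
theorem mem_of_fixed (x : L) (hx : x ^ Fintype.card K = x) : ∃ a : K, algebraMap K L a = x := by
  classical
  by_contra hne
  push Not at hne
  have hq : 1 < Fintype.card K := Fintype.one_lt_card
  let s : Finset L := insert x (univ.image (algebraMap K L))
  have hs : s.card = Fintype.card K + 1 := by
    rw [Finset.card_insert_of_notMem, Finset.card_image_of_injective _ (algebraMap K L).injective,
      Finset.card_univ]
    intro h
    rw [Finset.mem_image] at h
    obtain ⟨a, -, ha⟩ := h
    exact hne a ha
  have hp : (X ^ Fintype.card K - X : L[X]) ≠ 0 := FiniteField.X_pow_card_sub_X_ne_zero L hq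
  have hsub : s.val ⊆ (X ^ Fintype.card K - X : L[X]).roots := by
    intro y hy
    rw [mem_roots hp, IsRoot.def, eval_sub, eval_pow, eval_X, sub_eq_zero]
    rw [Finset.mem_val, Finset.mem_insert] at hy
    rcases hy with rfl | hy
    · exact hx
    · rw [Finset.mem_image] at hy
      obtain ⟨a, -, rfl⟩ := hy
      rw [← map_pow, FiniteField.pow_card]
  have hle : s.val ≤ (X ^ Fintype.card K - X : L[X]).roots :=
    (Multiset.le_iff_subset s.nodup).2 hsub
  have h1 := Multiset.card_le_card hle
  have h2 := card_roots' (X ^ Fintype.card K - X : L[X])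
  rw [FiniteField.X_pow_card_sub_X_natDegree_eq L hq] at h2
  rw [Finset.card_val, hs] at h1
  omega

end

theorem main : S_IRR := by
  intro K _ _ _ hK P hP hirr
  classical
  have : Fact (Irreducible P) := ⟨hirr⟩
  let L := AdjoinRoot P
  let pb : PowerBasis K L := AdjoinRoot.powerBasis hirr.ne_zero
  have : FiniteDimensional K L := pb.finite
  have : Finite L := Module.finite_of_finite K
  have : Fintype L := Fintype.ofFinite L
  have hmin : minpoly K pb.gen = P := AdjoinRoot.minpoly_powerBasis_gen_of_monic hP
  have hdim : pb.dim = P.natDegree :=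
    (pb.natDegree_minpoly).symm.trans (congrArg natDegree hmin)
  have hn : 1 ≤ P.natDegree := hirr.natDegree_pos
  have hfr : Module.finrank K L = P.natDegree := by rw [pb.finrank, hdim]
  set n := P.natDegree with hndef
  set k := n * (n - 1) / 2 with hk
  -- the discriminant
  have hD : Algebra.discr K pb.basis = (-1) ^ k * resultant P (derivative P) := by
    rw [Algebra.discr_powerBasis_eq_norm, hmin, norm_eq_resultant P _ pb hmin hP, hfr]
  have hD2 : algebraMap K L (Algebra.discr K pb.basis) = (dlt K n pb.gen) ^ 2 :=
    (discr_eq pb).trans (by rw [hdim])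
  set δ : L := dlt K n pb.gen with hδ
  have hD0 : Algebra.discr K pb.basis ≠ 0 := Algebra.discr_not_zero_of_basis K pb.basis
  have hδ0 : δ ≠ 0 := by
    intro h
    rw [h, zero_pow two_ne_zero] at hD2
    exact hD0 ((map_eq_zero _).1 hD2)
  have hθ : pb.gen ^ (Fintype.card K ^ n) = pb.gen := by
    have h1 : Fintype.card L = Fintype.card K ^ n := by
      rw [Module.card_eq_pow_finrank (K := K) (V := L), hfr]
    rw [← h1]
    exact FiniteField.pow_card _
  have hfd := frob_dlt (K := K) n pb.gen hθ
  rw [← hδ] at hfd
  have h2 : (2 : K) ≠ 0 := Ring.two_ne_zero hK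
  have h2L : (2 : L) ≠ 0 := by
    intro h
    apply h2
    apply (algebraMap K L).injective
    rw [map_ofNat, map_zero]
    exact h
  -- the quadratic character of the discriminant
  have hchi : quadraticChar K (Algebra.discr K pb.basis) = (-1) ^ (n - 1) := by
    rcases Nat.even_or_odd (n - 1) with he | ho
    · rw [he.neg_one_pow]
      rw [he.neg_one_pow, one_mul] at hfd
      obtain ⟨d, hd⟩ := mem_of_fixed δ hfd
      rw [quadraticChar_one_iff_isSquare hD0]
      refine ⟨d, ?_⟩
      apply (algebraMap K L).injective
      rw [hD2, map_mul, hd, sq]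
    · rw [ho.neg_one_pow]
      rw [ho.neg_one_pow] at hfd
      rw [quadraticChar_neg_one_iff_not_isSquare]
      rintro ⟨d, hd⟩
      have h3 : algebraMap K L d * algebraMap K L d = δ * δ := by
        rw [← map_mul, ← hd, hD2, sq]
      have h4 : ∃ c : K, algebraMap K L c = δ := by
        rcases mul_self_eq_mul_self_iff.1 h3 with h | h
        · exact ⟨d, h⟩
        · exact ⟨-d, by rw [map_neg, h, neg_neg]⟩
      obtain ⟨c, hc⟩ := h4
      have h5 : δ ^ Fintype.card K = δ := by
        rw [← hc, ← map_pow, FiniteField.pow_card]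
      rw [h5] at hfd
      have h6 : 2 * δ = 0 := by linear_combination hfd
      rcases mul_eq_zero.1 h6 with h | h
      · exact h2L h
      · exact hδ0 h
  have hr : resultant P (derivative P) = (-1) ^ k * Algebra.discr K pb.basis := by
    rw [hD, ← mul_assoc, ← mul_pow]
    simp
  rw [jac, hr, map_mul, map_pow, hchi]
  have h7 : ((-1 : ℤ)) ^ (n - 1) = - (-1) ^ n := by
    obtain ⟨m, hm⟩ : ∃ m, n = m + 1 := ⟨n - 1, by omega⟩
    rw [hm, Nat.add_sub_cancel, pow_succ]
    ring
  rw [h7]
  ring

end Pool.Agent.W188.FL.Irr
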